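import Pool.Agent.K1H50.PV.Stm

/-!
# PV-MM (helper60, task 50001): modulus of continuity of the recursion of the linear sieve
-/

set_option autoImplicit false

namespace Pool.Agent.K1H60.PV

open Finset
open Pool.Agent.W23.DC (MM Mer)

/-- the upper limit of the sum in the recursion -/
noncomputable def mm : Bool → ℝ → ℝ → ℝ
  | true, τ, ζ => min ζ (τ / 3)
  | false, _, ζ => ζ

lemma mm_le (b : Bool) (τ ζ : ℝ) : mm b τ ζ ≤ ζ := by
  cases b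
  · exact le_refl _
  · exact min_le_left _ _

lemma mm_lip (b : Bool) (τ ζ τ' ζ' : ℝ) :
    |mm b τ ζ - mm b τ' ζ'| ≤ |τ - τ'| + |ζ - ζ'| := by
  cases b
  · show |ζ - ζ'| ≤ _
    have := abs_nonneg (τ - τ')
    linarith
  · show |min ζ (τ / 3) - min ζ' (τ' / 3)| ≤ _
    have h1 := abs_min_sub_min_le_max ζ (τ / 3) ζ' (τ' / 3)
    have h2 : |τ / 3 - τ' / 3| ≤ |τ - τ'| := by
      rw [← sub_div, abs_div]
      have : |(3 : ℝ)| = 3 := by norm_num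
      rw [this]
      have := abs_nonneg (τ - τ')
      linarith
    have h3 := abs_nonneg (τ - τ')
    have h4 := abs_nonneg (ζ - ζ')
    refine h1.trans (max_le ?_ ?_) <;> linarith

open Classical in
lemma MM_succ (P : Finset ℕ) (t g : ℕ → ℝ) (k : ℕ) (b : Bool) (τ ζ : ℝ) :
    MM P t g (k + 1) b τ ζ = 1 - ∑ p ∈ P.filter (fun p => t p < mm b τ ζ),
      g p * MM P t g k (!b) (τ - t p) (t p) := by
  cases b
  · simp only [MM, mm, Bool.not_false] <;> congr 1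
  · simp only [MM, mm, Bool.not_true]
    congr 1
    refine sum_congr ?_ fun _ _ => rfl
    ext p
    simp only [mem_filter, lt_min_iff]
    constructor
    · rintro ⟨h1, h2, h3⟩
      exact ⟨h1, h2, by linarith⟩
    · rintro ⟨h1, h2, h3⟩
      exact ⟨h1, h2, by linarith⟩

open Classical in
lemma sum_split (P : Finset ℕ) (t f : ℕ → ℝ) (a b c : ℝ) (h1 : a ≤ b) (h2 : b ≤ c) :
    ∑ p ∈ P.filter (fun p => a ≤ t p ∧ t p < c), f p =
      ∑ p ∈ P.filter (fun p => a ≤ t p ∧ t p < b), f p +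
      ∑ p ∈ P.filter (fun p => b ≤ t p ∧ t p < c), f p := by
  rw [← sum_union]
  · refine sum_congr ?_ fun _ _ => rfl
    ext p
    simp only [mem_filter, mem_union]
    constructor
    · rintro ⟨h, h3, h4⟩
      rcases lt_or_ge (t p) b with h5 | h5
      · exact Or.inl ⟨h, h3, h5⟩
      · exact Or.inr ⟨h, h5, h4⟩
    · rintro (⟨h, h3, h4⟩ | ⟨h, h3, h4⟩)
      · exact ⟨h, h3, lt_of_lt_of_le h4 h2⟩
      · exact ⟨h, h1.trans h3, h4⟩
  · rw [Finset.disjoint_left]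
    intro p hp hq
    simp only [mem_filter] at hp hq
    linarith [hp.2.2, hq.2.1]

open Classical in
lemma sum_split' (P : Finset ℕ) (t f : ℕ → ℝ) (b c : ℝ) (h2 : b ≤ c) :
    ∑ p ∈ P.filter (fun p => t p < c), f p =
      ∑ p ∈ P.filter (fun p => t p < b), f p +
      ∑ p ∈ P.filter (fun p => b ≤ t p ∧ t p < c), f p := by
  rw [← sum_union]
  · refine sum_congr ?_ fun _ _ => rfl
    ext p
    simp only [mem_filter, mem_union]
    constructor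
    · rintro ⟨h, h4⟩
      rcases lt_or_ge (t p) b with h5 | h5
      · exact Or.inl ⟨h, h5⟩
      · exact Or.inr ⟨h, h5, h4⟩
    · rintro (⟨h, h3⟩ | ⟨h, h3, h4⟩)
      · exact ⟨h, lt_of_lt_of_le h3 h2⟩
      · exact ⟨h, h4⟩
  · rw [Finset.disjoint_left]
    intro p hp hq
    simp only [mem_filter] at hp hq
    linarith [hp.2, hq.2.1]

open Classical in
lemma filter_ge (P : Finset ℕ) (t : ℕ → ℝ) (ε₁ c : ℝ) (ht : ∀ p ∈ P, ε₁ ≤ t p) :
    P.filter (fun p => t p < c) = P.filter (fun p => ε₁ ≤ t p ∧ t p < c) := by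
  ext p
  simp only [mem_filter]
  exact ⟨fun h => ⟨h.1, ht p h.1, h.2⟩, fun h => ⟨h.1, h.2.2⟩⟩

/-- the bound for the total mass -/
noncomputable def BB (ε₁ : ℝ) : ℝ := Real.log (1 / ε₁) + 1

lemma one_le_BB {ε₁ : ℝ} (h0 : 0 < ε₁) (h1 : ε₁ ≤ 1) : 1 ≤ BB ε₁ := by
  unfold BB
  have : 0 ≤ Real.log (1 / ε₁) := Real.log_nonneg (by rw [le_div_iff₀ h0]; linarith)
  linarith

open Classical in
lemma mass (ε₁ η w : ℝ) (h0 : 0 < ε₁) (h1 : ε₁ ≤ 1) (hη : η ≤ 1) (P : Finset ℕ) (t g : ℕ → ℝ)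
    (hw : w ≤ 1) (ht : ∀ p ∈ P, ε₁ ≤ t p) (hM : Mer P t g ε₁ w η) (m : ℝ) (hm : m ≤ w) :
    ∑ p ∈ P.filter (fun p => t p < m), g p ≤ BB ε₁ := by
  have hB := one_le_BB h0 h1
  have hB0 : 0 < BB ε₁ := by linarith
  rcases lt_or_ge m ε₁ with h | h
  · have : P.filter (fun p => t p < m) = ∅ := by
      rw [filter_eq_empty_iff]
      intro p hp hpm
      have := ht p hp
      linarith
    rw [this, sum_empty]
    linarith
  · rw [filter_ge P t ε₁ m ht]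
    have h2 := (abs_le.1 (hM ε₁ m (le_refl _) h hm)).2
    have h3 : Real.log (m / ε₁) ≤ Real.log (1 / ε₁) := by
      apply Real.log_le_log (div_pos (by linarith) h0)
      apply div_le_div_of_nonneg_right _ h0.le
      linarith
    unfold BB
    linarith

open Classical in
lemma mass_gap (ε₁ η w : ℝ) (h0 : 0 < ε₁) (hη0 : 0 ≤ η) (P : Finset ℕ)
    (t g : ℕ → ℝ) (ht : ∀ p ∈ P, ε₁ ≤ t p) (hM : Mer P t g ε₁ w η) (m m' : ℝ)
    (hmm : m ≤ m') (hm : m' ≤ w) :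
    ∑ p ∈ P.filter (fun p => m ≤ t p ∧ t p < m'), g p ≤ (m' - m) / ε₁ + η := by
  rcases le_or_gt m' ε₁ with h | h
  · have : P.filter (fun p => m ≤ t p ∧ t p < m') = ∅ := by
      rw [filter_eq_empty_iff]
      rintro p hp ⟨_, hpm⟩
      have := ht p hp
      linarith
    rw [this, sum_empty]
    have : 0 ≤ (m' - m) / ε₁ := div_nonneg (by linarith) h0.le
    linarith
  · have ha : max ε₁ m ≤ m' := max_le h.le hmm
    have ha0 : 0 < max ε₁ m := lt_max_of_lt_left h0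
    have h1 : P.filter (fun p => m ≤ t p ∧ t p < m') =
        P.filter (fun p => max ε₁ m ≤ t p ∧ t p < m') := by
      ext p
      simp only [mem_filter, max_le_iff]
      exact ⟨fun h => ⟨h.1, ⟨ht p h.1, h.2.1⟩, h.2.2⟩, fun h => ⟨h.1, h.2.1.2, h.2.2⟩⟩
    rw [h1]
    have h2 := (abs_le.1 (hM (max ε₁ m) m' (le_max_left _ _) ha hm)).2
    have h3 : Real.log (m' / max ε₁ m) ≤ m' / max ε₁ m - 1 :=
      Real.log_le_sub_one_of_pos (div_pos (by linarith) ha0)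
    have h4 : m' / max ε₁ m - 1 ≤ (m' - m) / ε₁ := by
      have h5 : m' / max ε₁ m - 1 = (m' - max ε₁ m) / max ε₁ m := by
        field_simp
      rw [h5]
      have h6 : (m' - max ε₁ m) / max ε₁ m ≤ (m' - max ε₁ m) / ε₁ :=
        div_le_div_of_nonneg_left (by linarith) h0 (le_max_left _ _)
      have h7 : (m' - max ε₁ m) / ε₁ ≤ (m' - m) / ε₁ :=
        div_le_div_of_nonneg_right (by linarith [le_max_right ε₁ m]) h0.le
      linarith
    linarith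

lemma abs_sum_mul_le (F : Finset ℕ) (g h : ℕ → ℝ) (C : ℝ) (hg : ∀ p ∈ F, 0 ≤ g p)
    (hh : ∀ p ∈ F, |h p| ≤ C) : |∑ p ∈ F, g p * h p| ≤ (∑ p ∈ F, g p) * C := by
  refine (abs_sum_le_sum_abs _ _).trans ?_
  rw [sum_mul]
  refine sum_le_sum fun p hp => ?_
  rw [abs_mul, abs_of_nonneg (hg p hp)]
  exact mul_le_mul_of_nonneg_left (hh p hp) (hg p hp)

lemma bd (ε₁ η w : ℝ) (h0 : 0 < ε₁) (h1 : ε₁ ≤ 1) (hη : η ≤ 1) (P : Finset ℕ)
    (t g : ℕ → ℝ) (hw : w ≤ 1) (hg : ∀ p ∈ P, 0 ≤ g p) (ht : ∀ p ∈ P, ε₁ ≤ t p)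
    (hM : Mer P t g ε₁ w η) (k : ℕ) : ∀ (b : Bool) (τ ζ : ℝ), ζ ≤ w →
    |MM P t g k b τ ζ| ≤ (1 + BB ε₁) ^ k := by
  classical
  have hB := one_le_BB h0 h1
  have hB0 : 0 < BB ε₁ := by linarith
  induction k with
  | zero =>
    intro b τ ζ _
    cases b <;> simp [MM]
  | succ k ih =>
    intro b τ ζ hζ
    rw [MM_succ]
    have hm : mm b τ ζ ≤ w := (mm_le b τ ζ).trans hζ
    have h2 : |∑ p ∈ P.filter (fun p => t p < mm b τ ζ),
        g p * MM P t g k (!b) (τ - t p) (t p)| ≤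
        (∑ p ∈ P.filter (fun p => t p < mm b τ ζ), g p) * (1 + BB ε₁) ^ k := by
      apply abs_sum_mul_le
      · intro p hp
        exact hg p (mem_filter.1 hp).1
      · intro p hp
        exact ih _ _ _ ((mem_filter.1 hp).2.le.trans hm)
    have h3 := mass ε₁ η w h0 h1 hη P t g hw ht hM _ hm
    have h4 : (1 : ℝ) ≤ (1 + BB ε₁) ^ k := one_le_pow₀ (by linarith)
    calc |1 - ∑ p ∈ P.filter (fun p => t p < mm b τ ζ),
        g p * MM P t g k (!b) (τ - t p) (t p)| ≤ |(1 : ℝ)| + |∑ p ∈ P.filter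
          (fun p => t p < mm b τ ζ), g p * MM P t g k (!b) (τ - t p) (t p)| := abs_sub _ _
      _ ≤ 1 + BB ε₁ * (1 + BB ε₁) ^ k := by
        rw [abs_one]
        have := mul_le_mul_of_nonneg_right h3 (show (0:ℝ) ≤ (1 + BB ε₁) ^ k by linarith)
        linarith
      _ ≤ (1 + BB ε₁) ^ (k + 1) := by
        rw [pow_succ]
        nlinarith

lemma md_aux (ε₁ η w : ℝ) (h0 : 0 < ε₁) (h1 : ε₁ ≤ 1) (hη0 : 0 ≤ η) (hη : η ≤ 1) (P : Finset ℕ)
    (t g : ℕ → ℝ) (hw : w ≤ 1) (hg : ∀ p ∈ P, 0 ≤ g p) (ht : ∀ p ∈ P, ε₁ ≤ t p)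
    (hM : Mer P t g ε₁ w η) (k : ℕ)
    (ih : ∀ (b : Bool) (τ ζ τ' ζ' : ℝ), ζ ≤ w → ζ' ≤ w →
      |MM P t g k b τ ζ - MM P t g k b τ' ζ'| ≤
        k * (1 + BB ε₁) ^ k / ε₁ * (|τ - τ'| + |ζ - ζ'| + η))
    (b : Bool) (τ ζ τ' ζ' : ℝ) (hζ : ζ ≤ w) (hζ' : ζ' ≤ w) (hmm : mm b τ ζ ≤ mm b τ' ζ') :
    |MM P t g (k + 1) b τ ζ - MM P t g (k + 1) b τ' ζ'| ≤
        (k + 1 : ℕ) * (1 + BB ε₁) ^ (k + 1) / ε₁ * (|τ - τ'| + |ζ - ζ'| + η) := by
  classical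
  have hB := one_le_BB h0 h1
  have hB0 : 0 < BB ε₁ := by linarith
  rw [MM_succ, MM_succ, sum_split' P t (fun p => g p * MM P t g k (!b) (τ' - t p) (t p)) _ _ hmm]
  have hm : mm b τ ζ ≤ w := (mm_le b τ ζ).trans hζ
  have hm' : mm b τ' ζ' ≤ w := (mm_le b τ' ζ').trans hζ'
  set m := mm b τ ζ with hmd
  set m' := mm b τ' ζ' with hmd'
  have hlip := mm_lip b τ' ζ' τ ζ
  rw [← hmd, ← hmd', abs_sub_comm τ' τ, abs_sub_comm ζ' ζ] at hlip
  have hlip' : m' - m ≤ |τ - τ'| + |ζ - ζ'| := (le_abs_self _).trans hlip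
  set X := |τ - τ'| + |ζ - ζ'| + η with hX
  have hX0 : 0 ≤ X := by positivity
  have e : (1 - ∑ p ∈ P.filter (fun p => t p < m), g p * MM P t g k (!b) (τ - t p) (t p)) -
      (1 - (∑ p ∈ P.filter (fun p => t p < m), g p * MM P t g k (!b) (τ' - t p) (t p) +
        ∑ p ∈ P.filter (fun p => m ≤ t p ∧ t p < m'), g p * MM P t g k (!b) (τ' - t p) (t p))) =
      ∑ p ∈ P.filter (fun p => m ≤ t p ∧ t p < m'), g p * MM P t g k (!b) (τ' - t p) (t p) -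
      ∑ p ∈ P.filter (fun p => t p < m), g p * (MM P t g k (!b) (τ - t p) (t p) -
        MM P t g k (!b) (τ' - t p) (t p)) := by
    simp only [mul_sub, sum_sub_distrib]
    ring
  rw [e]
  have a1 : |∑ p ∈ P.filter (fun p => m ≤ t p ∧ t p < m'),
      g p * MM P t g k (!b) (τ' - t p) (t p)| ≤
      (∑ p ∈ P.filter (fun p => m ≤ t p ∧ t p < m'), g p) * (1 + BB ε₁) ^ k := by
    apply abs_sum_mul_le
    · intro p hp
      exact hg p (mem_filter.1 hp).1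
    · intro p hp
      exact bd ε₁ η w h0 h1 hη P t g hw hg ht hM k _ _ _ ((mem_filter.1 hp).2.2.le.trans hm')
  have a2 := mass_gap ε₁ η w h0 hη0 P t g ht hM m m' hmm hm'
  have a3 : |∑ p ∈ P.filter (fun p => t p < m), g p * (MM P t g k (!b) (τ - t p) (t p) -
      MM P t g k (!b) (τ' - t p) (t p))| ≤ (∑ p ∈ P.filter (fun p => t p < m), g p) *
        (k * (1 + BB ε₁) ^ k / ε₁ * X) := by
    apply abs_sum_mul_le
    · intro p hp
      exact hg p (mem_filter.1 hp).1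
    · intro p hp
      have hpw : t p ≤ w := (mem_filter.1 hp).2.le.trans hm
      refine (ih _ _ _ _ _ hpw hpw).trans ?_
      apply mul_le_mul_of_nonneg_left _ (by positivity)
      have e1 : τ - t p - (τ' - t p) = τ - τ' := by ring
      rw [e1, sub_self, abs_zero, hX]
      have := abs_nonneg (ζ - ζ')
      linarith
  have a4 := mass ε₁ η w h0 h1 hη P t g hw ht hM _ hm
  have hk : (0 : ℝ) < (1 + BB ε₁) ^ k := by positivity
  have a5 : (m' - m) / ε₁ + η ≤ X / ε₁ := by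
    rw [hX, add_div]
    have h5 : (m' - m) / ε₁ ≤ (|τ - τ'| + |ζ - ζ'|) / ε₁ :=
      div_le_div_of_nonneg_right hlip' h0.le
    have h6 : η ≤ η / ε₁ := by
      rw [le_div_iff₀ h0]
      nlinarith
    linarith
  have a6 : |∑ p ∈ P.filter (fun p => m ≤ t p ∧ t p < m'),
      g p * MM P t g k (!b) (τ' - t p) (t p)| ≤ X / ε₁ * (1 + BB ε₁) ^ k :=
    a1.trans (mul_le_mul_of_nonneg_right (a2.trans a5) hk.le)
  have a7 : |∑ p ∈ P.filter (fun p => t p < m), g p * (MM P t g k (!b) (τ - t p) (t p) -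
      MM P t g k (!b) (τ' - t p) (t p))| ≤ BB ε₁ * (k * (1 + BB ε₁) ^ k / ε₁ * X) :=
    a3.trans (mul_le_mul_of_nonneg_right a4 (by positivity))
  refine (abs_sub _ _).trans ?_
  refine (add_le_add a6 a7).trans ?_
  have hq : 0 ≤ X / ε₁ * (1 + BB ε₁) ^ k := by positivity
  have e2 : ((k + 1 : ℕ) : ℝ) * (1 + BB ε₁) ^ (k + 1) / ε₁ * X =
      (k + 1) * (1 + BB ε₁) * (X / ε₁ * (1 + BB ε₁) ^ k) := by
    push_cast
    rw [pow_succ]
    ring
  have e3 : BB ε₁ * (k * (1 + BB ε₁) ^ k / ε₁ * X) =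
      (BB ε₁ * k) * (X / ε₁ * (1 + BB ε₁) ^ k) := by ring
  rw [e2, e3]
  have hk0 : (0 : ℝ) ≤ k := Nat.cast_nonneg k
  have h8 : 1 + BB ε₁ * k ≤ (k + 1) * (1 + BB ε₁) := by nlinarith
  have := mul_le_mul_of_nonneg_right h8 hq
  linarith

lemma md (ε₁ η w : ℝ) (h0 : 0 < ε₁) (h1 : ε₁ ≤ 1) (hη0 : 0 ≤ η) (hη : η ≤ 1) (P : Finset ℕ)
    (t g : ℕ → ℝ) (hw : w ≤ 1) (hg : ∀ p ∈ P, 0 ≤ g p) (ht : ∀ p ∈ P, ε₁ ≤ t p)
    (hM : Mer P t g ε₁ w η) (k : ℕ) : ∀ (b : Bool) (τ ζ τ' ζ' : ℝ), ζ ≤ w → ζ' ≤ w →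
      |MM P t g k b τ ζ - MM P t g k b τ' ζ'| ≤
        k * (1 + BB ε₁) ^ k / ε₁ * (|τ - τ'| + |ζ - ζ'| + η) := by
  induction k with
  | zero =>
    intro b τ ζ τ' ζ' _ _
    cases b <;> simp [MM]
  | succ k ih =>
    intro b τ ζ τ' ζ' hζ hζ'
    rcases le_total (mm b τ ζ) (mm b τ' ζ') with h | h
    · exact md_aux ε₁ η w h0 h1 hη0 hη P t g hw hg ht hM k ih b τ ζ τ' ζ' hζ hζ' h
    · have := md_aux ε₁ η w h0 h1 hη0 hη P t g hw hg ht hM k ih b τ' ζ' τ ζ hζ' hζ h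
      rwa [abs_sub_comm, abs_sub_comm τ' τ, abs_sub_comm ζ' ζ] at this

/-- the constant of `S_MMD` -/
noncomputable def CD (ε₁ : ℝ) (K : ℕ) : ℝ := (K + 1) * (1 + BB ε₁) ^ K / ε₁

lemma CD_pos (ε₁ : ℝ) (K : ℕ) (h0 : 0 < ε₁) (h1 : ε₁ ≤ 1) : 0 < CD ε₁ K := by
  have hB := one_le_BB h0 h1
  have hB0 : 0 < BB ε₁ := by linarith
  unfold CD
  positivity

lemma pow_le_CD (ε₁ : ℝ) (K k : ℕ) (hk : k ≤ K) (h0 : 0 < ε₁) (h1 : ε₁ ≤ 1) :
    (1 + BB ε₁) ^ k ≤ CD ε₁ K := by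
  have hB := one_le_BB h0 h1
  have hB0 : 0 < BB ε₁ := by linarith
  have h2 : (1 + BB ε₁) ^ k ≤ (1 + BB ε₁) ^ K := pow_le_pow_right₀ (by linarith) hk
  have h3 : (0 : ℝ) < (1 + BB ε₁) ^ K := by positivity
  unfold CD
  rw [le_div_iff₀ h0]
  have hK0 : (0 : ℝ) ≤ K := Nat.cast_nonneg K
  have h4 : (1 + BB ε₁) ^ k * ε₁ ≤ (1 + BB ε₁) ^ K * 1 :=
    mul_le_mul h2 h1 h0.le h3.le
  nlinarith

lemma lip_le_CD (ε₁ : ℝ) (K k : ℕ) (hk : k ≤ K) (h0 : 0 < ε₁) (h1 : ε₁ ≤ 1) :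
    k * (1 + BB ε₁) ^ k / ε₁ ≤ CD ε₁ K := by
  have hB := one_le_BB h0 h1
  have hB0 : 0 < BB ε₁ := by linarith
  unfold CD
  apply div_le_div_of_nonneg_right _ h0.le
  have h2 : (1 + BB ε₁) ^ k ≤ (1 + BB ε₁) ^ K := pow_le_pow_right₀ (by linarith) hk
  have h3 : (k : ℝ) ≤ K + 1 := by
    have : (k : ℝ) ≤ K := by exact_mod_cast hk
    linarith
  exact mul_le_mul h3 h2 (by positivity) (by positivity)

theorem t_MMD : Pool.Agent.K1H50.PV.S_MMD := by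
  intro ε₁ K h0 h1
  refine ⟨CD ε₁ K, CD_pos ε₁ K h0 h1, ?_⟩
  intro η hη0 hη P t g w hw hg ht hM k hk b τ ζ τ' ζ' hζ hζ'
  constructor
  · exact (bd ε₁ η w h0 h1 hη P t g hw hg ht hM k b τ ζ hζ).trans (pow_le_CD ε₁ K k hk h0 h1)
  · refine (md ε₁ η w h0 h1 hη0 hη P t g hw hg ht hM k b τ ζ τ' ζ' hζ hζ').trans ?_
    exact mul_le_mul_of_nonneg_right (lip_le_CD ε₁ K k hk h0 h1) (by positivity)

open Classical in
lemma INT_aux (ε₁ η w : ℝ) (P : Finset ℕ)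
    (t g g' : ℕ → ℝ) (hg : ∀ p ∈ P, 0 ≤ g p) (hg' : ∀ p ∈ P, 0 ≤ g' p)
    (hM : Mer P t g ε₁ w η) (hM' : Mer P t g' ε₁ w η)
    (H : ℝ → ℝ) (C κ ρ : ℝ) (hC0 : 0 ≤ C)
    (hC : ∀ x, ε₁ ≤ x → x ≤ w → |H x| ≤ C)
    (hκ : ∀ x x', ε₁ ≤ x → x ≤ w → ε₁ ≤ x' → x' ≤ w → |x - x'| ≤ ρ → |H x - H x'| ≤ κ)
    (a d : ℝ) (ha : ε₁ ≤ a) (hd0 : 0 ≤ d) (hd : d ≤ ρ) (n : ℕ) (hn : a + n * d ≤ w) :
    |∑ p ∈ P.filter (fun p => a ≤ t p ∧ t p < a + n * d), (g p - g' p) * H (t p)| ≤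
      2 * n * C * η + κ * ∑ p ∈ P.filter (fun p => a ≤ t p ∧ t p < a + n * d), (g p + g' p) := by
  induction n with
  | zero =>
    have : P.filter (fun p => a ≤ t p ∧ t p < a + ((0 : ℕ) : ℝ) * d) = ∅ := by
      rw [filter_eq_empty_iff]
      rintro p hp ⟨h2, h3⟩
      simp only [Nat.cast_zero, zero_mul, add_zero] at h3
      linarith
    rw [this]
    simp
  | succ n ih =>
    have e1 : a + ((n + 1 : ℕ) : ℝ) * d = a + n * d + d := by
      push_cast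
      ring
    have hnd : 0 ≤ (n : ℝ) * d := by positivity
    have hn' : a + n * d ≤ w := by
      rw [e1] at hn
      linarith
    have ih' := ih hn'
    have hx : a ≤ a + n * d := by linarith
    have hx2 : a + n * d ≤ a + ((n + 1 : ℕ) : ℝ) * d := by
      rw [e1]
      linarith
    rw [sum_split P t (fun p => (g p - g' p) * H (t p)) a (a + n * d) _ hx hx2,
      sum_split P t (fun p => g p + g' p) a (a + n * d) _ hx hx2]
    set x := a + n * d with hxd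
    set F := P.filter (fun p => x ≤ t p ∧ t p < a + ((n + 1 : ℕ) : ℝ) * d) with hF
    have hεx : ε₁ ≤ x := ha.trans hx
    have b1 : |∑ p ∈ F, (g p - g' p)| ≤ 2 * η := by
      have h2 := hM x _ hεx hx2 hn
      have h3 := hM' x _ hεx hx2 hn
      rw [sum_sub_distrib]
      have e2 : ∑ p ∈ F, g p - ∑ p ∈ F, g' p =
          (∑ p ∈ F, g p - Real.log ((a + ((n + 1 : ℕ) : ℝ) * d) / x)) -
          (∑ p ∈ F, g' p - Real.log ((a + ((n + 1 : ℕ) : ℝ) * d) / x)) := by ring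
      rw [e2]
      refine (abs_sub _ _).trans ?_
      linarith
    have b2 : |∑ p ∈ F, (g p - g' p) * H (t p)| ≤ 2 * C * η + κ * ∑ p ∈ F, (g p + g' p) := by
      have e3 : ∑ p ∈ F, (g p - g' p) * H (t p) = H x * ∑ p ∈ F, (g p - g' p) +
          ∑ p ∈ F, (g p - g' p) * (H (t p) - H x) := by
        rw [mul_sum, ← sum_add_distrib]
        refine sum_congr rfl fun p _ => ?_
        ring
      rw [e3]
      refine (abs_add_le _ _).trans ?_
      have c1 : |H x * ∑ p ∈ F, (g p - g' p)| ≤ 2 * C * η := by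
        rw [abs_mul]
        have h4 := mul_le_mul (hC x hεx hn') b1 (abs_nonneg _) hC0
        linarith
      have c2 : |∑ p ∈ F, (g p - g' p) * (H (t p) - H x)| ≤ κ * ∑ p ∈ F, (g p + g' p) := by
        refine (abs_sum_le_sum_abs _ _).trans ?_
        rw [mul_sum]
        refine sum_le_sum fun p hp => ?_
        obtain ⟨hp1, hp2, hp3⟩ := mem_filter.1 hp
        rw [abs_mul, mul_comm κ]
        have hp4 : t p ≤ w := hp3.le.trans hn
        have h5 : |H (t p) - H x| ≤ κ := by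
          apply hκ _ _ (hεx.trans hp2) hp4 hεx hn'
          rw [abs_of_nonneg (by linarith)]
          rw [e1] at hp3
          linarith
        have h6 : |g p - g' p| ≤ g p + g' p := by
          refine (abs_sub _ _).trans ?_
          rw [abs_of_nonneg (hg p hp1), abs_of_nonneg (hg' p hp1)]
        exact mul_le_mul h6 h5 (abs_nonneg _) (by
          have := hg p hp1
          have := hg' p hp1
          linarith)
      linarith
    refine (abs_add_le _ _).trans ?_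
    push_cast
    linarith

open Classical in
/-- **INT.** Two regular densities give nearly the same sums. -/
theorem INT (ε₁ η w : ℝ) (h0 : 0 < ε₁) (h1 : ε₁ ≤ 1) (hη0 : 0 ≤ η) (hη : η ≤ 1) (P : Finset ℕ)
    (t g g' : ℕ → ℝ) (hw : w ≤ 1) (hg : ∀ p ∈ P, 0 ≤ g p) (hg' : ∀ p ∈ P, 0 ≤ g' p)
    (ht : ∀ p ∈ P, ε₁ ≤ t p) (hM : Mer P t g ε₁ w η) (hM' : Mer P t g' ε₁ w η)
    (H : ℝ → ℝ) (C κ ρ : ℝ) (hC0 : 0 ≤ C) (hκ0 : 0 ≤ κ)
    (hC : ∀ x, ε₁ ≤ x → x ≤ w → |H x| ≤ C)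
    (hκ : ∀ x x', ε₁ ≤ x → x ≤ w → ε₁ ≤ x' → x' ≤ w → |x - x'| ≤ ρ → |H x - H x'| ≤ κ)
    (N : ℕ) (hN : 1 ≤ N) (hNρ : 1 / (N : ℝ) ≤ ρ) (a m : ℝ) (ha : ε₁ ≤ a) (hm : m ≤ w) :
    |∑ p ∈ P.filter (fun p => a ≤ t p ∧ t p < m), (g p - g' p) * H (t p)| ≤
      2 * N * C * η + 2 * BB ε₁ * κ := by
  have hB := one_le_BB h0 h1
  have hB0 : 0 < BB ε₁ := by linarith
  rcases le_or_gt m a with h | h
  · have : P.filter (fun p => a ≤ t p ∧ t p < m) = ∅ := by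
      rw [filter_eq_empty_iff]
      rintro p hp ⟨h2, h3⟩
      linarith
    rw [this, sum_empty, abs_zero]
    positivity
  · have hN0 : (0 : ℝ) < N := by exact_mod_cast hN
    have e1 : a + (N : ℝ) * ((m - a) / N) = m := by
      field_simp
      ring
    have hd : (m - a) / N ≤ ρ := by
      refine le_trans ?_ hNρ
      apply div_le_div_of_nonneg_right _ hN0.le
      linarith
    have h2 := INT_aux ε₁ η w P t g g' hg hg' hM hM' H C κ ρ hC0 hC hκ a ((m - a) / N) ha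
      (div_nonneg (by linarith) hN0.le) hd N (by rw [e1]; exact hm)
    rw [e1] at h2
    refine h2.trans ?_
    have h3 : ∀ f : ℕ → ℝ, (∀ p ∈ P, 0 ≤ f p) → Mer P t f ε₁ w η →
        ∑ p ∈ P.filter (fun p => a ≤ t p ∧ t p < m), f p ≤ BB ε₁ := by
      intro f hf hMf
      refine le_trans ?_ (mass ε₁ η w h0 h1 hη P t f hw ht hMf m hm)
      apply sum_le_sum_of_subset_of_nonneg
      · intro p hp
        obtain ⟨hp1, hp2, hp3⟩ := mem_filter.1 hp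
        exact mem_filter.2 ⟨hp1, hp3⟩
      · intro p hp _
        exact hf p (mem_filter.1 hp).1
    have h4 := h3 g hg hM
    have h5 := h3 g' hg' hM'
    rw [sum_add_distrib]
    have h6 := mul_le_mul_of_nonneg_left (add_le_add h4 h5) hκ0
    linarith

open Classical in
/-- the same for the sums of the recursion -/
theorem INT' (ε₁ η w : ℝ) (h0 : 0 < ε₁) (h1 : ε₁ ≤ 1) (hη0 : 0 ≤ η) (hη : η ≤ 1) (P : Finset ℕ)
    (t g g' : ℕ → ℝ) (hw : w ≤ 1) (hg : ∀ p ∈ P, 0 ≤ g p) (hg' : ∀ p ∈ P, 0 ≤ g' p)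
    (ht : ∀ p ∈ P, ε₁ ≤ t p) (hM : Mer P t g ε₁ w η) (hM' : Mer P t g' ε₁ w η)
    (H : ℝ → ℝ) (C κ ρ : ℝ) (hC0 : 0 ≤ C) (hκ0 : 0 ≤ κ)
    (hC : ∀ x, ε₁ ≤ x → x ≤ w → |H x| ≤ C)
    (hκ : ∀ x x', ε₁ ≤ x → x ≤ w → ε₁ ≤ x' → x' ≤ w → |x - x'| ≤ ρ → |H x - H x'| ≤ κ)
    (N : ℕ) (hN : 1 ≤ N) (hNρ : 1 / (N : ℝ) ≤ ρ) (m : ℝ) (hm : m ≤ w) :
    |∑ p ∈ P.filter (fun p => t p < m), (g p - g' p) * H (t p)| ≤
      2 * N * C * η + 2 * BB ε₁ * κ := by
  rw [filter_ge P t ε₁ m ht]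
  exact INT ε₁ η w h0 h1 hη0 hη P t g g' hw hg hg' ht hM hM' H C κ ρ hC0 hκ0 hC hκ N hN hNρ
    ε₁ m (le_refl _) hm

lemma cmp (ε₁ η w : ℝ) (h0 : 0 < ε₁) (h1 : ε₁ ≤ 1) (hη0 : 0 ≤ η) (hη : η ≤ 1) (P : Finset ℕ)
    (t g g' : ℕ → ℝ) (hw : w ≤ 1) (hg : ∀ p ∈ P, 0 ≤ g p) (hg' : ∀ p ∈ P, 0 ≤ g' p)
    (ht : ∀ p ∈ P, ε₁ ≤ t p) (hM : Mer P t g ε₁ w η) (hM' : Mer P t g' ε₁ w η)
    (K N : ℕ) (hN : 1 ≤ N) (k : ℕ) (hk : k ≤ K) : ∀ (b : Bool) (τ ζ : ℝ), ζ ≤ w →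
      |MM P t g k b τ ζ - MM P t g' k b τ ζ| ≤
        (2 * N * CD ε₁ K * η + 2 * BB ε₁ * (CD ε₁ K * (2 / N + η))) * (1 + BB ε₁) ^ k := by
  classical
  have hB := one_le_BB h0 h1
  have hB0 : 0 < BB ε₁ := by linarith
  have hCD := CD_pos ε₁ K h0 h1
  have hN0 : (0 : ℝ) < N := by exact_mod_cast hN
  set δ := 2 * N * CD ε₁ K * η + 2 * BB ε₁ * (CD ε₁ K * (2 / N + η)) with hδ
  have hδ0 : 0 ≤ δ := by positivity
  induction k with
  | zero =>
    intro b τ ζ _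
    cases b <;> simp [MM, hδ0]
  | succ k ih =>
    intro b τ ζ hζ
    have ihk := ih (by omega)
    have hkK : k ≤ K := by omega
    have hm : mm b τ ζ ≤ w := (mm_le b τ ζ).trans hζ
    rw [MM_succ, MM_succ]
    have e : (1 - ∑ p ∈ P.filter (fun p => t p < mm b τ ζ),
        g p * MM P t g k (!b) (τ - t p) (t p)) -
        (1 - ∑ p ∈ P.filter (fun p => t p < mm b τ ζ),
        g' p * MM P t g' k (!b) (τ - t p) (t p)) =
        -(∑ p ∈ P.filter (fun p => t p < mm b τ ζ), g p * (MM P t g k (!b) (τ - t p) (t p) -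
          MM P t g' k (!b) (τ - t p) (t p))) -
        ∑ p ∈ P.filter (fun p => t p < mm b τ ζ), (g p - g' p) *
          (fun x => MM P t g' k (!b) (τ - x) x) (t p) := by
      simp only [mul_sub, sub_mul, sum_sub_distrib]
      ring
    rw [e]
    have a1 : |∑ p ∈ P.filter (fun p => t p < mm b τ ζ), (g p - g' p) *
          (fun x => MM P t g' k (!b) (τ - x) x) (t p)| ≤ δ := by
      have := INT' ε₁ η w h0 h1 hη0 hη P t g g' hw hg hg' ht hM hM'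
        (fun x => MM P t g' k (!b) (τ - x) x) (CD ε₁ K) (CD ε₁ K * (2 / N + η)) (1 / N)
        hCD.le (by positivity)
        (fun x _ hx => (bd ε₁ η w h0 h1 hη P t g' hw hg' ht hM' k _ _ _ hx).trans
          (pow_le_CD ε₁ K k hkK h0 h1))
        (fun x x' _ hx _ hx' hxx => by
          refine (md ε₁ η w h0 h1 hη0 hη P t g' hw hg' ht hM' k _ _ _ _ _ hx hx').trans ?_
          apply mul_le_mul (lip_le_CD ε₁ K k hkK h0 h1) _ (by positivity) hCD.le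
          have e1 : τ - x - (τ - x') = -(x - x') := by ring
          rw [e1, abs_neg]
          have e2 : (2 : ℝ) / N = 1 / N + 1 / N := by ring
          rw [e2]
          linarith)
        N hN (le_refl _) (mm b τ ζ) hm
      exact this
    have a2 : |∑ p ∈ P.filter (fun p => t p < mm b τ ζ),
        g p * (MM P t g k (!b) (τ - t p) (t p) - MM P t g' k (!b) (τ - t p) (t p))| ≤
        (∑ p ∈ P.filter (fun p => t p < mm b τ ζ), g p) * (δ * (1 + BB ε₁) ^ k) := by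
      apply abs_sum_mul_le
      · intro p hp
        exact hg p (mem_filter.1 hp).1
      · intro p hp
        exact ihk _ _ _ ((mem_filter.1 hp).2.le.trans hm)
    have a3 := mass ε₁ η w h0 h1 hη P t g hw ht hM _ hm
    have hk1 : (1 : ℝ) ≤ (1 + BB ε₁) ^ k := one_le_pow₀ (by linarith)
    have a4 := mul_le_mul_of_nonneg_right a3 (show 0 ≤ δ * (1 + BB ε₁) ^ k by positivity)
    refine (abs_sub _ _).trans ?_
    rw [abs_neg]
    have h5 : δ ≤ δ * (1 + BB ε₁) ^ k := le_mul_of_one_le_right hδ0 hk1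
    have e5 : δ * (1 + BB ε₁) ^ (k + 1) = δ * (1 + BB ε₁) ^ k + BB ε₁ * (δ * (1 + BB ε₁) ^ k) := by
      rw [pow_succ]
      ring
    rw [e5]
    linarith

theorem t_MMC : Pool.Agent.K1H50.PV.S_MMC := by
  intro ε₁ η' K h0 h1 hη'
  have hB := one_le_BB h0 h1
  have hB0 : 0 < BB ε₁ := by linarith
  have hCD := CD_pos ε₁ K h0 h1
  set A := (1 + BB ε₁) ^ K with hA
  have hA0 : 0 < A := by positivity
  -- choose `N`
  obtain ⟨N, hN⟩ := exists_nat_gt (8 * BB ε₁ * CD ε₁ K * A / η')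
  have hN0 : (0 : ℝ) < N := lt_of_le_of_lt (by positivity) hN
  have hN1 : 1 ≤ N := by exact_mod_cast hN0
  have hN2 : 4 * BB ε₁ * CD ε₁ K * A / N ≤ η' / 2 := by
    rw [div_le_div_iff₀ hN0 (by norm_num)]
    rw [div_lt_iff₀ hη'] at hN
    linarith
  set D := (2 * N * CD ε₁ K + 2 * BB ε₁ * CD ε₁ K) * A with hD
  have hD0 : 0 < D := by positivity
  refine ⟨min 1 (η' / (2 * D)), by positivity, ?_⟩
  intro P t g g' w hw hg hg' ht hM hM' k hk b τ ζ hζ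
  set η := min 1 (η' / (2 * D)) with hη
  have hη0 : 0 < η := by positivity
  have hη1 : η ≤ 1 := min_le_left _ _
  have hη2 : D * η ≤ η' / 2 := by
    have : η ≤ η' / (2 * D) := min_le_right _ _
    calc D * η ≤ D * (η' / (2 * D)) := mul_le_mul_of_nonneg_left this hD0.le
      _ = η' / 2 := by field_simp
  have h2 := cmp ε₁ η w h0 h1 hη0.le hη1 P t g g' hw hg hg' ht hM hM' K N hN1 k hk b τ ζ hζ
  refine h2.trans ?_
  have h3 : (1 + BB ε₁) ^ k ≤ A := pow_le_pow_right₀ (by linarith) hk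
  have h4 : (2 * N * CD ε₁ K * η + 2 * BB ε₁ * (CD ε₁ K * (2 / N + η))) * (1 + BB ε₁) ^ k ≤
      (2 * N * CD ε₁ K * η + 2 * BB ε₁ * (CD ε₁ K * (2 / N + η))) * A :=
    mul_le_mul_of_nonneg_left h3 (by positivity)
  refine h4.trans ?_
  have e1 : (2 * N * CD ε₁ K * η + 2 * BB ε₁ * (CD ε₁ K * (2 / N + η))) * A =
      D * η + 4 * BB ε₁ * CD ε₁ K * A / N := by
    rw [hD]
    ring
  rw [e1]
  linarith

end Pool.Agent.K1H60.PV
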